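import Mathlib
import Pool.Agent.H6.AsymSum

namespace Pool.Agent.Results.MP_697cf1_co.Q1False

open Pool.Agent.H6.UpperDens

theorem result : ∃ m l : ℕ, 1 ≤ l ∧ l < m ∧ ∃ A : Set ℕ, 0 ∉ A ∧
    ((m : ℝ) / l + 1) / ((m : ℝ) / l + 2) < upperDensity A ∧
    ∀ B : Set ℕ, B.Infinite → ∀ t : ℕ, ¬ ∀ b₁ ∈ B, ∀ b₂ ∈ B, m * b₁ + l * b₂ + t ∈ A :=
  ⟨2, 1, le_rfl, by norm_num, A0, zero_A0, by have := dens1; norm_num at this ⊢; exact this,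
    no_sumset⟩

end Pool.Agent.Results.MP_697cf1_co.Q1False
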